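import Pool.Agent.H11.Shad1

open H11.Shad

theorem Pool.Agent.Results.MP_5f67f4_co.Counter.result :
    ∃ (r n : ℕ) (s : Fin r → ℕ) (G : Finset (Fin (n + 1) → Fin r)), 2 ≤ r ∧ ∑ i, s i = n + 1 ∧
      G.card = (FamL r (n + 1) s).card ∧ (shadow G).card < (shadow (FamL r (n + 1) s)).card :=
  ⟨3, 3, ![1, 1, 2], G0, by norm_num, by decide, G0_card.trans FL_card.symm,
    by rw [G0_sh, FL_sh]; norm_num⟩
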